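import Mathlib

open MeasureTheory Set Filter Topology
open scoped ENNReal ContDiff

namespace Pool.Agent.Results.MP_498700_an.LogGrowth

/-- `g` is the weak derivative of `η` on `ℝ`. -/
def HasWeakDeriv (η g : ℝ → ℝ) : Prop :=
  ∀ φ : ℝ → ℝ, ContDiff ℝ ∞ φ → HasCompactSupport φ →
    ∫ x, η x * deriv φ x = -∫ x, g x * φ x

/-- `η ∈ W^{1,1}(ℝ)`: `η` is integrable and has an integrable weak derivative. -/
def MemW11 (η : ℝ → ℝ) : Prop := Integrable η ∧ ∃ g : ℝ → ℝ, Integrable g ∧ HasWeakDeriv η g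

/-- The `q`-th power of the Gagliardo seminorm of order `1/q` for `N = d = 1` and `q = 2`:
`∫∫ |v(x) - v(y)|² / |x - y|² dx dy`. -/
noncomputable def gagliardo (v : ℝ → ℝ) : ℝ≥0∞ :=
  ∫⁻ x, ∫⁻ y, ‖v x - v y‖ₑ ^ 2 / ‖x - y‖ₑ ^ 2

/-- The `q`-th power of the Besov seminorm of `B^{1/q}_{q,∞}` for `N = d = 1` and `q = 2`:
`sup_{h ≠ 0} ∫ |u(x+h) - u(x)|² / |h| dx`. -/
noncomputable def besov (u : ℝ → ℝ) : ℝ≥0∞ :=
  ⨆ (h : ℝ) (_ : h ≠ 0), ∫⁻ x, ‖u (x + h) - u x‖ₑ ^ 2 / ‖h‖ₑ

/-- `u_ε(x) = ∫ η(z) u(x - ε z) dz`. -/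
noncomputable def mollify (η : ℝ → ℝ) (ε : ℝ) (u : ℝ → ℝ) (x : ℝ) : ℝ :=
  ∫ z, η z * u (x - ε * z)

/-! ### Cauchy-Schwarz and Young -/

lemma cs {k f : ℝ → ℝ≥0∞} (hk : Measurable k) (hf : Measurable f) :
    (∫⁻ z, k z * f z) ^ 2 ≤ (∫⁻ z, k z) * ∫⁻ z, k z * f z ^ 2 := by
  have h := ENNReal.lintegral_mul_le_Lp_mul_Lq (μ := volume) Real.HolderConjugate.two_two
    (f := fun z => k z ^ (1 / 2 : ℝ)) (g := fun z => k z ^ (1 / 2 : ℝ) * f z)
    (hk.pow_const _).aemeasurable ((hk.pow_const _).mul hf).aemeasurable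
  have h1 : ∀ z, k z ^ (1 / 2 : ℝ) * (k z ^ (1 / 2 : ℝ) * f z) = k z * f z := by
    intro z
    rw [← mul_assoc, ← ENNReal.rpow_add_of_nonneg _ _ (by norm_num) (by norm_num)]
    norm_num
  have h2 : ∀ z, (k z ^ (1 / 2 : ℝ)) ^ (2 : ℝ) = k z := by
    intro z
    rw [← ENNReal.rpow_mul]
    norm_num
  have h3 : ∀ z, (k z ^ (1 / 2 : ℝ) * f z) ^ (2 : ℝ) = k z * f z ^ 2 := by
    intro z
    rw [ENNReal.mul_rpow_of_nonneg _ _ (by norm_num), h2]
    norm_num
  simp only [Pi.mul_apply, h1, h2, h3] at h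
  calc (∫⁻ z, k z * f z) ^ 2 ≤
      ((∫⁻ z, k z) ^ (1 / 2 : ℝ) * (∫⁻ z, k z * f z ^ 2) ^ (1 / 2 : ℝ)) ^ 2 := by
        gcongr
    _ = (∫⁻ z, k z) * ∫⁻ z, k z * f z ^ 2 := by
        rw [mul_pow, ← ENNReal.rpow_natCast, ← ENNReal.rpow_natCast, ← ENNReal.rpow_mul,
          ← ENNReal.rpow_mul]
        norm_num

lemma young {k f : ℝ → ℝ≥0∞} (hk : Measurable k) (hf : Measurable f) (ε : ℝ) :
    ∫⁻ x, (∫⁻ z, k z * f (x - ε * z)) ^ 2 ≤ (∫⁻ z, k z) ^ 2 * ∫⁻ x, f x ^ 2 := by
  calc ∫⁻ x, (∫⁻ z, k z * f (x - ε * z)) ^ 2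
      ≤ ∫⁻ x, (∫⁻ z, k z) * ∫⁻ z, k z * f (x - ε * z) ^ 2 := by
        refine lintegral_mono fun x => ?_
        exact cs hk (hf.comp (by fun_prop))
    _ = (∫⁻ z, k z) * ∫⁻ x, ∫⁻ z, k z * f (x - ε * z) ^ 2 := by
        rw [lintegral_const_mul]
        refine Measurable.lintegral_prod_right' (f := fun p : ℝ × ℝ => k p.2 *
          f (p.1 - ε * p.2) ^ 2) ?_
        fun_prop
    _ = (∫⁻ z, k z) * ∫⁻ z, ∫⁻ x, k z * f (x - ε * z) ^ 2 := by
        rw [lintegral_lintegral_swap]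
        refine Measurable.aemeasurable ?_
        simp only [Function.uncurry_def]
        fun_prop
    _ = (∫⁻ z, k z) * ∫⁻ z, k z * ∫⁻ x, f x ^ 2 := by
        congr 1
        refine lintegral_congr fun z => ?_
        rw [lintegral_const_mul _ (by fun_prop)]
        congr 1
        exact lintegral_sub_right_eq_self (fun x => f x ^ 2) (ε * z)
    _ = (∫⁻ z, k z) ^ 2 * ∫⁻ x, f x ^ 2 := by
        rw [lintegral_mul_const _ hk]
        ring

/-! ### The Gagliardo seminorm through increments -/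

lemma gagliardo_eq {v : ℝ → ℝ} (hv : Measurable v) :
    gagliardo v = ∫⁻ h, (∫⁻ x, ‖v (x + h) - v x‖ₑ ^ 2) / ‖h‖ₑ ^ 2 := by
  unfold gagliardo
  calc ∫⁻ x, ∫⁻ y, ‖v x - v y‖ₑ ^ 2 / ‖x - y‖ₑ ^ 2
      = ∫⁻ x, ∫⁻ h, ‖v (x + h) - v x‖ₑ ^ 2 / ‖h‖ₑ ^ 2 := by
        refine lintegral_congr fun x => ?_
        rw [← lintegral_add_left_eq_self _ x]
        refine lintegral_congr fun h => ?_
        have h1 : ‖v x - v (x + h)‖ₑ = ‖v (x + h) - v x‖ₑ := by
          rw [← enorm_neg, neg_sub]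
        have h2 : ‖x - (x + h)‖ₑ = ‖h‖ₑ := by
          rw [← enorm_neg]
          congr 1
          ring
        rw [h1, h2]
    _ = ∫⁻ h, ∫⁻ x, ‖v (x + h) - v x‖ₑ ^ 2 / ‖h‖ₑ ^ 2 := by
        rw [lintegral_lintegral_swap]
        refine Measurable.aemeasurable ?_
        simp only [Function.uncurry_def]
        fun_prop
    _ = ∫⁻ h, (∫⁻ x, ‖v (x + h) - v x‖ₑ ^ 2) / ‖h‖ₑ ^ 2 := by
        refine lintegral_congr fun h => ?_
        simp only [div_eq_mul_inv]
        rw [lintegral_mul_const _ (by fun_prop)]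

/-- The kernel integral. -/
lemma kernel_bound {r : ℝ} (hr : 0 < r) :
    ∫⁻ h : ℝ, ENNReal.ofReal (min 1 (h ^ 2 / r ^ 2)) / ‖h‖ₑ ^ 2 ≤
      ENNReal.ofReal (2 * Real.pi / r) := by
  have h1 : ∀ h : ℝ, ENNReal.ofReal (min 1 (h ^ 2 / r ^ 2)) / ‖h‖ₑ ^ 2 ≤
      ENNReal.ofReal (2 / r ^ 2 * (1 + (h / r) ^ 2)⁻¹) := by
    intro h
    by_cases h0 : h = 0
    · subst h0
      simp
    · have hh : ‖h‖ₑ ^ 2 = ENNReal.ofReal (h ^ 2) := by
        rw [Real.enorm_eq_ofReal_abs, ← ENNReal.ofReal_pow (abs_nonneg _), sq_abs]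
      have hpos : 0 < h ^ 2 := by positivity
      rw [hh, ← ENNReal.ofReal_div_of_pos hpos]
      refine ENNReal.ofReal_le_ofReal ?_
      have hr2 : 0 < r ^ 2 := by positivity
      have e : 2 / r ^ 2 * (1 + (h / r) ^ 2)⁻¹ = 2 / (r ^ 2 + h ^ 2) := by
        field_simp
      rw [e, div_le_div_iff₀ hpos (by positivity)]
      rcases le_total (h ^ 2) (r ^ 2) with h2 | h2
      · have : min 1 (h ^ 2 / r ^ 2) ≤ h ^ 2 / r ^ 2 := min_le_right _ _
        calc min 1 (h ^ 2 / r ^ 2) * (r ^ 2 + h ^ 2) ≤ h ^ 2 / r ^ 2 * (r ^ 2 + r ^ 2) := by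
              gcongr
          _ = 2 * h ^ 2 := by field_simp; ring
      · have : min 1 (h ^ 2 / r ^ 2) ≤ 1 := min_le_left _ _
        calc min 1 (h ^ 2 / r ^ 2) * (r ^ 2 + h ^ 2) ≤ 1 * (h ^ 2 + h ^ 2) := by
              gcongr
          _ = 2 * h ^ 2 := by ring
  refine (lintegral_mono h1).trans ?_
  have hint : Integrable fun h : ℝ => 2 / r ^ 2 * (1 + (h / r) ^ 2)⁻¹ := by
    refine Integrable.const_mul ?_ _
    exact integrable_inv_one_add_sq.comp_div hr.ne'
  rw [← ofReal_integral_eq_lintegral_ofReal hint (Eventually.of_forall fun h => by positivity)]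
  refine ENNReal.ofReal_le_ofReal (le_of_eq ?_)
  rw [integral_const_mul, Measure.integral_comp_div (fun h => (1 + h ^ 2)⁻¹) r,
    integral_univ_inv_one_add_sq, abs_of_pos hr, smul_eq_mul]
  field_simp

/-- From a bound on increments to a bound on the Gagliardo seminorm. -/
lemma gagliardo_le {v : ℝ → ℝ} (hv : Measurable v) {r : ℝ} (hr : 0 < r) {A : ℝ≥0∞}
    (h : ∀ t : ℝ, ∫⁻ x, ‖v (x + t) - v x‖ₑ ^ 2 ≤ A * ENNReal.ofReal (min 1 (t ^ 2 / r ^ 2))) :
    gagliardo v ≤ A * ENNReal.ofReal (2 * Real.pi / r) := by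
  rw [gagliardo_eq hv]
  calc ∫⁻ t, (∫⁻ x, ‖v (x + t) - v x‖ₑ ^ 2) / ‖t‖ₑ ^ 2
      ≤ ∫⁻ t : ℝ, A * (ENNReal.ofReal (min 1 (t ^ 2 / r ^ 2)) / ‖t‖ₑ ^ 2) := by
        refine lintegral_mono fun t => ?_
        rw [← mul_div_assoc]
        exact ENNReal.div_le_div_right (h t) _
    _ = A * ∫⁻ t : ℝ, ENNReal.ofReal (min 1 (t ^ 2 / r ^ 2)) / ‖t‖ₑ ^ 2 := by
        rw [lintegral_const_mul]
        fun_prop
    _ ≤ _ := by gcongr; exact kernel_bound hr

/-! ### The bumps -/

/-- The tent of height `b`, half-width `r` and centre `c`. -/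
noncomputable def tent (b r c x : ℝ) : ℝ := b * max 0 (1 - |x - c| / r)

lemma tent_measurable (b r c : ℝ) : Measurable (tent b r c) := by
  unfold tent; fun_prop

lemma tent_zero {b r c x : ℝ} (hr : 0 < r) (h : r ≤ |x - c|) : tent b r c x = 0 := by
  unfold tent
  rw [max_eq_left]
  · ring
  · rw [sub_nonpos, le_div_iff₀ hr]
    linarith

lemma tent_abs_le {b r c x : ℝ} (hr : 0 < r) : |tent b r c x| ≤ |b| := by
  unfold tent
  rw [abs_mul]
  refine mul_le_of_le_one_right (abs_nonneg _) ?_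
  rw [abs_of_nonneg (le_max_left _ _)]
  refine max_le zero_le_one ?_
  have : 0 ≤ |x - c| / r := by positivity
  linarith

lemma tent_diff {b r c x y : ℝ} (hr : 0 < r) :
    (tent b r c x - tent b r c y) ^ 2 ≤ b ^ 2 * min 1 ((x - y) ^ 2 / r ^ 2) := by
  have e : tent b r c x - tent b r c y =
      b * (max 0 (1 - |x - c| / r) - max 0 (1 - |y - c| / r)) := by
    unfold tent; ring
  rw [e, mul_pow]
  refine mul_le_mul_of_nonneg_left (le_min ?_ ?_) (by positivity)
  · have h1 : 0 ≤ max 0 (1 - |x - c| / r) := le_max_left _ _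
    have h2 : 0 ≤ max 0 (1 - |y - c| / r) := le_max_left _ _
    have h3 : max 0 (1 - |x - c| / r) ≤ 1 := by
      refine max_le zero_le_one ?_
      have : 0 ≤ |x - c| / r := by positivity
      linarith
    have h4 : max 0 (1 - |y - c| / r) ≤ 1 := by
      refine max_le zero_le_one ?_
      have : 0 ≤ |y - c| / r := by positivity
      linarith
    rw [sq_le_one_iff_abs_le_one, abs_le]
    constructor <;> linarith
  · rw [← div_pow, sq_le_sq]
    have h1 := abs_max_sub_max_le_abs (1 - |x - c| / r) (1 - |y - c| / r) 0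
    rw [max_comm _ (0 : ℝ), max_comm _ (0 : ℝ)] at h1
    refine h1.trans ?_
    have h2 : (1 - |x - c| / r) - (1 - |y - c| / r) = (|y - c| - |x - c|) / r := by ring
    rw [h2, abs_div, abs_div]
    refine div_le_div_of_nonneg_right ?_ (abs_nonneg r)
    have h3 := abs_abs_sub_abs_le_abs_sub (y - c) (x - c)
    refine h3.trans (le_of_eq ?_)
    rw [← abs_neg]
    congr 1
    ring

lemma tent_incr {b r c : ℝ} (hr : 0 < r) (t : ℝ) :
    ∫⁻ x, ‖tent b r c (x + t) - tent b r c x‖ₑ ^ 2 ≤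
      ENNReal.ofReal (4 * r * b ^ 2) * ENNReal.ofReal (min 1 (t ^ 2 / r ^ 2)) := by
  set S : Set ℝ := Icc (c - r) (c + r) ∪ Icc (c - t - r) (c - t + r)
  have hS : MeasurableSet S := measurableSet_Icc.union measurableSet_Icc
  have hvol : volume S ≤ ENNReal.ofReal (4 * r) := by
    refine (measure_union_le _ _).trans ?_
    rw [Real.volume_Icc, Real.volume_Icc, ← ENNReal.ofReal_add (by linarith) (by linarith)]
    exact ENNReal.ofReal_le_ofReal (by linarith)
  have hpt : ∀ x, ‖tent b r c (x + t) - tent b r c x‖ₑ ^ 2 ≤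
      S.indicator (fun _ => ENNReal.ofReal (b ^ 2 * min 1 (t ^ 2 / r ^ 2))) x := by
    intro x
    by_cases hx : x ∈ S
    · rw [indicator_of_mem hx, Real.enorm_eq_ofReal_abs, ← ENNReal.ofReal_pow (abs_nonneg _),
        sq_abs]
      refine ENNReal.ofReal_le_ofReal ?_
      have := tent_diff (b := b) (c := c) (x := x + t) (y := x) hr
      simpa using this
    · rw [indicator_of_notMem hx]
      simp only [S, mem_union, mem_Icc, not_or, not_and_or, not_le] at hx
      have h1 : tent b r c x = 0 := by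
        refine tent_zero hr ?_
        rcases hx.1 with h | h
        · rw [abs_of_nonpos (by linarith)]; linarith
        · rw [abs_of_nonneg (by linarith)]; linarith
      have h2 : tent b r c (x + t) = 0 := by
        refine tent_zero hr ?_
        rcases hx.2 with h | h
        · rw [abs_of_nonpos (by linarith)]; linarith
        · rw [abs_of_nonneg (by linarith)]; linarith
      rw [h1, h2]
      simp
  refine (lintegral_mono hpt).trans ?_
  rw [lintegral_indicator hS, setLIntegral_const]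
  have hmin : 0 ≤ min 1 (t ^ 2 / r ^ 2) := le_min zero_le_one (by positivity)
  calc ENNReal.ofReal (b ^ 2 * min 1 (t ^ 2 / r ^ 2)) * volume S
      ≤ ENNReal.ofReal (b ^ 2 * min 1 (t ^ 2 / r ^ 2)) * ENNReal.ofReal (4 * r) := by gcongr
    _ = _ := by
      rw [← ENNReal.ofReal_mul (by positivity), ← ENNReal.ofReal_mul (by positivity)]
      congr 1
      ring

lemma tent_sq {b r c : ℝ} (hr : 0 < r) :
    ∫⁻ x, ‖tent b r c x‖ₑ ^ 2 ≤ ENNReal.ofReal (2 * r * b ^ 2) := by
  have hpt : ∀ x, ‖tent b r c x‖ₑ ^ 2 ≤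
      (Icc (c - r) (c + r)).indicator (fun _ => ENNReal.ofReal (b ^ 2)) x := by
    intro x
    by_cases hx : x ∈ Icc (c - r) (c + r)
    · rw [indicator_of_mem hx, Real.enorm_eq_ofReal_abs, ← ENNReal.ofReal_pow (abs_nonneg _)]
      refine ENNReal.ofReal_le_ofReal ?_
      rw [← sq_abs b]
      exact pow_le_pow_left₀ (abs_nonneg _) (tent_abs_le hr) 2
    · rw [indicator_of_notMem hx]
      simp only [mem_Icc, not_and_or, not_le] at hx
      have h1 : tent b r c x = 0 := by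
        refine tent_zero hr ?_
        rcases hx with h | h
        · rw [abs_of_nonpos (by linarith)]; linarith
        · rw [abs_of_nonneg (by linarith)]; linarith
      rw [h1]
      simp
  refine (lintegral_mono hpt).trans ?_
  rw [lintegral_indicator measurableSet_Icc, setLIntegral_const, Real.volume_Icc,
    ← ENNReal.ofReal_mul (by positivity)]
  exact ENNReal.ofReal_le_ofReal (by nlinarith)

lemma tent_gagliardo {b r c : ℝ} (hr : 0 < r) :
    gagliardo (tent b r c) ≤ ENNReal.ofReal (8 * Real.pi * b ^ 2) := by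
  refine (gagliardo_le (tent_measurable b r c) hr (tent_incr hr)).trans (le_of_eq ?_)
  rw [← ENNReal.ofReal_mul (by positivity)]
  congr 1
  field_simp
  ring

/-! ### Translations of `W^{1,1}` functions -/

lemma test_primitive {φ : ℝ → ℝ} (hφ : ContDiff ℝ ∞ φ) (hc : HasCompactSupport φ) {t : ℝ}
    (ht : 0 ≤ t) :
    ∃ ψ : ℝ → ℝ, ContDiff ℝ ∞ ψ ∧ HasCompactSupport ψ ∧ (∀ x, deriv ψ x = φ x - φ (x - t)) ∧
      ∀ x, ψ x = ∫ s in Ioc 0 t, φ (x - s) := by
  have hcont : Continuous φ := hφ.continuous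
  set Φ : ℝ → ℝ := fun x => ∫ s in (0 : ℝ)..x, φ s with hΦ
  have hΦd : ∀ x, HasDerivAt Φ (φ x) x := fun x =>
    intervalIntegral.integral_hasDerivAt_right (hcont.intervalIntegrable _ _)
      (hcont.stronglyMeasurableAtFilter _ _) hcont.continuousAt
  have hΦc : ContDiff ℝ ∞ Φ := by
    rw [contDiff_infty_iff_deriv]
    refine ⟨fun x => (hΦd x).differentiableAt, ?_⟩
    have : deriv Φ = φ := funext fun x => (hΦd x).deriv
    rw [this]
    exact hφ
  have hψeq : ∀ x, Φ x - Φ (x - t) = ∫ s in Ioc 0 t, φ (x - s) := by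
    intro x
    rw [← intervalIntegral.integral_of_le ht, intervalIntegral.integral_comp_sub_left, sub_zero]
    simp only [hΦ]
    rw [intervalIntegral.integral_interval_sub_left (hcont.intervalIntegrable _ _)
      (hcont.intervalIntegrable _ _)]
  refine ⟨fun x => Φ x - Φ (x - t), ?_, ?_, ?_, hψeq⟩
  · exact hΦc.sub (hΦc.comp (contDiff_id.sub contDiff_const))
  · obtain ⟨R, hR⟩ := hc.isCompact.isBounded.subset_closedBall 0
    refine HasCompactSupport.intro (isCompact_Icc (a := -|R|) (b := |R| + t)) ?_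
    intro x hx
    rw [hψeq]
    refine setIntegral_eq_zero_of_forall_eq_zero fun s hs => ?_
    by_contra h0
    have h1 : x - s ∈ tsupport φ := subset_tsupport _ h0
    have h2 := hR h1
    rw [mem_closedBall_zero_iff, Real.norm_eq_abs] at h2
    have h3 := abs_le.1 (h2.trans (le_abs_self R))
    apply hx
    constructor <;> linarith [hs.1, hs.2]
  · intro x
    have h1 : HasDerivAt (fun x => Φ (x - t)) (φ (x - t)) x := by
      have := (hΦd (x - t)).comp_sub_const x t
      exact this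
    exact ((hΦd x).sub h1).deriv

lemma transl_pos {η g : ℝ → ℝ} (hη : Integrable η) (hg : Integrable g) (hgm : Measurable g)
    (hw : HasWeakDeriv η g) {t : ℝ} (ht : 0 ≤ t) :
    ∫⁻ x, ‖η (x + t) - η x‖ₑ ≤ ENNReal.ofReal t * ∫⁻ x, ‖g x‖ₑ := by
  set ν : Measure ℝ := volume.restrict (Ioc 0 t) with hν
  have hfin : IsFiniteMeasure ν := ⟨by
    rw [hν, Measure.restrict_apply_univ, Real.volume_Ioc]; exact ENNReal.ofReal_lt_top⟩
  have H1 : Integrable (fun p : ℝ × ℝ => g (p.1 + p.2)) (volume.prod ν) := by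
    rw [integrable_prod_iff' (by
      exact (hgm.comp (measurable_fst.add measurable_snd)).aestronglyMeasurable)]
    refine ⟨Eventually.of_forall fun y => hg.comp_add_right y, ?_⟩
    have : (fun y : ℝ => ∫ x, ‖g (x + y)‖) = fun _ => ∫ x, ‖g x‖ := by
      funext y
      exact integral_add_right_eq_self (fun x => ‖g x‖) y
    simp only [this]
    exact integrable_const _
  set P : ℝ → ℝ := fun x => ∫ s, g (x + s) ∂ν with hP
  have hPint : Integrable P := H1.integral_prod_left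
  have key : ∀ᵐ x, η (x + t) - η x = P x := by
    refine ae_eq_of_integral_contDiff_smul_eq
      ((hη.comp_add_right t).sub hη).locallyIntegrable hPint.locallyIntegrable ?_
    intro φ hφ hc
    obtain ⟨ψ, hψ1, hψ2, hψ3, hψ4⟩ := test_primitive hφ hc ht
    have hcont : Continuous φ := hφ.continuous
    obtain ⟨C, hC⟩ := hc.exists_bound_of_continuous hcont
    have H2 : Integrable (fun p : ℝ × ℝ => φ p.1 * g (p.1 + p.2)) (volume.prod ν) :=
      H1.bdd_mul (c := C) (hcont.comp continuous_fst).aestronglyMeasurable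
        (Eventually.of_forall fun p => hC _)
    have H3' : Integrable (fun p : ℝ × ℝ => g p.1) (volume.prod ν) := by
      have := hg.mul_prod (integrable_const (μ := ν) (1 : ℝ))
      simpa using this
    have H3 : Integrable (fun p : ℝ × ℝ => φ (p.1 - p.2) * g p.1) (volume.prod ν) :=
      H3'.bdd_mul (c := C) (hcont.comp (continuous_fst.sub continuous_snd)).aestronglyMeasurable
        (Eventually.of_forall fun p => hC _)
    have e1 : ∫ x, φ x • P x = ∫ x, ∫ s, φ x * g (x + s) ∂ν := by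
      refine integral_congr_ae (Eventually.of_forall fun x => ?_)
      simp only [hP, smul_eq_mul]
      rw [integral_const_mul]
    have e2 : ∫ x, ∫ s, φ x * g (x + s) ∂ν = ∫ s, ∫ x, φ x * g (x + s) ∂volume ∂ν :=
      integral_integral_swap H2
    have e3 : ∀ s : ℝ, ∫ x, φ x * g (x + s) = ∫ x, φ (x - s) * g x := by
      intro s
      rw [← integral_add_right_eq_self (fun x => φ (x - s) * g x) s]
      simp
    have e4 : ∫ s, ∫ x, φ (x - s) * g x ∂volume ∂ν = ∫ x, ∫ s, φ (x - s) * g x ∂ν :=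
      (integral_integral_swap H3).symm
    have e5 : ∫ x, ∫ s, φ (x - s) * g x ∂ν = ∫ x, g x * ψ x := by
      refine integral_congr_ae (Eventually.of_forall fun x => ?_)
      simp only
      rw [integral_mul_const, hψ4 x, mul_comm]
    have e6 : ∫ x, g x * ψ x = -∫ x, η x * deriv ψ x := by
      rw [hw ψ hψ1 hψ2, neg_neg]
    have i1 : Integrable fun x => φ x * η x :=
      hη.bdd_mul (c := C) hcont.aestronglyMeasurable (Eventually.of_forall fun p => hC _)
    have i2 : Integrable fun x => φ (x - t) * η x :=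
      hη.bdd_mul (c := C) (hcont.comp (continuous_id.sub continuous_const)).aestronglyMeasurable
        (Eventually.of_forall fun p => hC _)
    have i3 : Integrable fun x => φ x * η (x + t) :=
      (hη.comp_add_right t).bdd_mul (c := C) hcont.aestronglyMeasurable
        (Eventually.of_forall fun p => hC _)
    have e7 : ∫ x, η x * deriv ψ x = (∫ x, φ x * η x) - ∫ x, φ (x - t) * η x := by
      rw [← integral_sub i1 i2]
      refine integral_congr_ae (Eventually.of_forall fun x => ?_)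
      simp only [hψ3 x]
      ring
    have e8 : ∫ x, φ (x - t) * η x = ∫ x, φ x * η (x + t) := by
      rw [← integral_add_right_eq_self (fun x => φ (x - t) * η x) t]
      simp
    have e9 : ∫ x, φ x • (η (x + t) - η x) =
        (∫ x, φ x * η (x + t)) - ∫ x, φ x * η x := by
      rw [← integral_sub i3 i1]
      refine integral_congr_ae (Eventually.of_forall fun x => ?_)
      simp only [smul_eq_mul]
      ring
    rw [e9, e1, e2, integral_congr_ae (Eventually.of_forall e3), e4, e5, e6, e7, e8]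
    ring
  calc ∫⁻ x, ‖η (x + t) - η x‖ₑ = ∫⁻ x, ‖P x‖ₑ := by
        refine lintegral_congr_ae ?_
        filter_upwards [key] with x hx
        rw [hx]
    _ ≤ ∫⁻ x, ∫⁻ s, ‖g (x + s)‖ₑ ∂ν := lintegral_mono fun x => enorm_integral_le_lintegral_enorm _
    _ = ∫⁻ s, ∫⁻ x, ‖g (x + s)‖ₑ ∂volume ∂ν := by
        rw [lintegral_lintegral_swap]
        refine Measurable.aemeasurable ?_
        simp only [Function.uncurry_def]
        fun_prop
    _ = ∫⁻ _s, ∫⁻ x, ‖g x‖ₑ ∂volume ∂ν := by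
        refine lintegral_congr fun s => ?_
        exact lintegral_add_right_eq_self (fun x => ‖g x‖ₑ) s
    _ = ENNReal.ofReal t * ∫⁻ x, ‖g x‖ₑ := by
        rw [lintegral_const, hν, Measure.restrict_apply_univ, Real.volume_Ioc, sub_zero, mul_comm]

lemma transl {η : ℝ → ℝ} (h : MemW11 η) : ∃ M : ℝ≥0∞, M ≠ ⊤ ∧ (∫⁻ x, ‖η x‖ₑ) ≤ M ∧
    ∀ t r : ℝ, 0 < r → (∫⁻ x, ‖η (x + t / r) - η x‖ₑ) ^ 2 ≤
      M ^ 2 * ENNReal.ofReal (min 1 (t ^ 2 / r ^ 2)) := by
  obtain ⟨hη, g, hg, hw⟩ := h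
  -- a measurable representative
  set g' := hg.aestronglyMeasurable.mk g
  have hgg : g =ᵐ[volume] g' := hg.aestronglyMeasurable.ae_eq_mk
  have hg' : Integrable g' := hg.congr hgg
  have hgm : Measurable g' := hg.aestronglyMeasurable.stronglyMeasurable_mk.measurable
  have hw' : HasWeakDeriv η g' := by
    intro φ h1 h2
    rw [hw φ h1 h2]
    congr 1
    refine integral_congr_ae ?_
    filter_upwards [hgg] with x hx
    rw [hx]
  have hA : ∫⁻ x, ‖η x‖ₑ ≠ ⊤ := hη.2.ne
  have hB : ∫⁻ x, ‖g' x‖ₑ ≠ ⊤ := hg'.2.ne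
  set A := ∫⁻ x, ‖η x‖ₑ
  set B := ∫⁻ x, ‖g' x‖ₑ
  have hT0 : ∀ s : ℝ, ∫⁻ x, ‖η (x + s) - η x‖ₑ ≤ 2 * A := by
    intro s
    calc ∫⁻ x, ‖η (x + s) - η x‖ₑ ≤ ∫⁻ x, (‖η (x + s)‖ₑ + ‖η x‖ₑ) :=
          lintegral_mono fun x => enorm_sub_le
      _ = (∫⁻ x, ‖η (x + s)‖ₑ) + ∫⁻ x, ‖η x‖ₑ := by
          rw [lintegral_add_right' _ hη.aestronglyMeasurable.enorm]
      _ = 2 * A := by
          rw [lintegral_add_right_eq_self (fun x => ‖η x‖ₑ) s, two_mul]
  have hT1 : ∀ s : ℝ, ∫⁻ x, ‖η (x + s) - η x‖ₑ ≤ ENNReal.ofReal |s| * B := by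
    intro s
    rcases le_total 0 s with hs | hs
    · rw [abs_of_nonneg hs]
      exact transl_pos hη hg' hgm hw' hs
    · rw [abs_of_nonpos hs]
      refine le_trans (le_of_eq ?_) (transl_pos hη hg' hgm hw' (t := -s) (by linarith))
      rw [← lintegral_add_right_eq_self (fun x => ‖η (x + -s) - η x‖ₑ) s]
      refine lintegral_congr fun x => ?_
      rw [← enorm_neg]
      congr 1
      rw [show x + s + -s = x by ring]
      ring
  refine ⟨2 * A + B, by finiteness, by rw [two_mul, add_assoc]; exact le_self_add, ?_⟩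
  intro t r hr
  have hmin : 0 ≤ min 1 (|t| / r) := le_min zero_le_one (by positivity)
  have h1 : ∫⁻ x, ‖η (x + t / r) - η x‖ₑ ≤ (2 * A + B) * ENNReal.ofReal (min 1 (|t| / r)) := by
    rcases le_total (|t| / r) 1 with h | h
    · rw [min_eq_right h]
      refine (hT1 _).trans ?_
      rw [abs_div, abs_of_pos hr, mul_comm]
      gcongr
      exact le_add_self
    · rw [min_eq_left h, ENNReal.ofReal_one, mul_one]
      exact (hT0 _).trans le_self_add
  have h2 : min 1 (t ^ 2 / r ^ 2) = (min 1 (|t| / r)) ^ 2 := by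
    have h3 : t ^ 2 / r ^ 2 = (|t| / r) ^ 2 := by rw [div_pow, sq_abs]
    have h4 : 0 ≤ |t| / r := by positivity
    rw [h3]
    rcases le_total (|t| / r) 1 with h | h
    · rw [min_eq_right h, min_eq_right (pow_le_one₀ h4 h)]
    · rw [min_eq_left h, min_eq_left (one_le_pow₀ h), one_pow]
  rw [h2, ENNReal.ofReal_pow hmin, ← mul_pow]
  gcongr


/-! ### Mollification -/

lemma mollify_measurable {η u : ℝ → ℝ} (hη : Measurable η) (hu : Measurable u) (ε : ℝ) :
    Measurable (mollify η ε u) := by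
  have h : StronglyMeasurable (Function.uncurry fun x z : ℝ => η z * u (x - ε * z)) := by
    refine Measurable.stronglyMeasurable ?_
    simp only [Function.uncurry_def]
    fun_prop
  exact (h.integral_prod_right (ν := volume)).measurable

lemma moll_integrable {η u : ℝ → ℝ} (hη : Measurable η) (hηi : Integrable η) (hu : Measurable u)
    (hu2 : ∫⁻ x, ‖u x‖ₑ ^ 2 ≠ ⊤) (ε : ℝ) :
    ∀ᵐ x, Integrable fun z => η z * u (x - ε * z) := by
  have hy := young (k := fun z => ‖η z‖ₑ) (f := fun z => ‖u z‖ₑ) (by fun_prop) (by fun_prop) ε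
  have hfin : ∫⁻ x, (∫⁻ z, ‖η z‖ₑ * ‖u (x - ε * z)‖ₑ) ^ 2 ≠ ⊤ := by
    refine ne_top_of_le_ne_top ?_ hy
    have := hηi.2.ne
    exact ENNReal.mul_ne_top (ENNReal.pow_ne_top this) hu2
  have hmeas : Measurable fun x => (∫⁻ z, ‖η z‖ₑ * ‖u (x - ε * z)‖ₑ) ^ 2 := by
    refine Measurable.pow_const ?_ 2
    refine Measurable.lintegral_prod_right' (f := fun p : ℝ × ℝ => ‖η p.2‖ₑ *
          ‖u (p.1 - ε * p.2)‖ₑ) ?_
    fun_prop
  filter_upwards [ae_lt_top hmeas hfin] with x hx
  refine ⟨by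
    refine Measurable.aestronglyMeasurable ?_
    fun_prop, ?_⟩
  rw [hasFiniteIntegral_iff_enorm]
  simp only [enorm_mul]
  rcases lt_or_eq_of_le (le_top (a := ∫⁻ z, ‖η z‖ₑ * ‖u (x - ε * z)‖ₑ)) with h | h
  · exact h
  · rw [h] at hx
    simp at hx

/-- Increments of the mollification, bounded through increments of `u`. -/
lemma moll_incr_u {η u : ℝ → ℝ} (hη : Measurable η) (hηi : Integrable η) (hu : Measurable u)
    {B : ℝ} (hB : ∀ x, ‖u x‖ ≤ B) (ε h : ℝ) :
    ∫⁻ x, ‖mollify η ε u (x + h) - mollify η ε u x‖ₑ ^ 2 ≤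
      (∫⁻ x, ‖η x‖ₑ) ^ 2 * ∫⁻ x, ‖u (x + h) - u x‖ₑ ^ 2 := by
  have hI : ∀ x, Integrable fun z => η z * u (x - ε * z) := by
    intro x
    have := hηi.bdd_mul (c := B) (f := fun z => u (x - ε * z))
      (Measurable.aestronglyMeasurable (by fun_prop)) (Eventually.of_forall fun z => hB _)
    refine this.congr (Eventually.of_forall fun z => ?_)
    simp only
    ring
  have hy := young (k := fun z => ‖η z‖ₑ) (f := fun z => ‖u (z + h) - u z‖ₑ) (by fun_prop)
    (by fun_prop) ε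
  refine le_trans (lintegral_mono fun x => ?_) hy
  gcongr
  unfold mollify
  rw [← integral_sub (hI _) (hI _)]
  refine (enorm_integral_le_lintegral_enorm _).trans (le_of_eq ?_)
  refine lintegral_congr fun z => ?_
  rw [← mul_sub, enorm_mul, show x + h - ε * z = x - ε * z + h by ring]

/-- Increments of the mollification, bounded through increments of `η`. -/
lemma moll_incr_eta {η u : ℝ → ℝ} (hη : Measurable η) (hηi : Integrable η) (hu : Measurable u)
    (hu2 : ∫⁻ x, ‖u x‖ₑ ^ 2 ≠ ⊤) {ε : ℝ} (hε : 0 < ε) (h : ℝ) :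
    ∫⁻ x, ‖mollify η ε u (x + h) - mollify η ε u x‖ₑ ^ 2 ≤
      (∫⁻ x, ‖η (x + h / ε) - η x‖ₑ) ^ 2 * ∫⁻ x, ‖u x‖ₑ ^ 2 := by
  have hI := moll_integrable hη hηi hu hu2 ε
  have hI2 : ∀ᵐ x, Integrable fun z => η z * u (x + h - ε * z) :=
    (measurePreserving_add_right volume h).quasiMeasurePreserving.ae hI
  have hy := young (k := fun z => ‖η (z + h / ε) - η z‖ₑ) (f := fun z => ‖u z‖ₑ)
    (by fun_prop) (by fun_prop) ε
  refine le_trans (lintegral_mono_ae ?_) hy
  filter_upwards [hI, hI2] with x h1 h2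
  gcongr
  unfold mollify
  have e : ∫ z, η z * u (x + h - ε * z) = ∫ z, η (z + h / ε) * u (x - ε * z) := by
    rw [← integral_add_right_eq_self (fun z => η z * u (x + h - ε * z)) (h / ε)]
    refine integral_congr_ae (Eventually.of_forall fun z => ?_)
    simp only
    congr 2
    field_simp
    ring
  have h3 : Integrable fun z => η (z + h / ε) * u (x - ε * z) := by
    have := h2.comp_add_right (h / ε)
    refine this.congr (Eventually.of_forall fun z => ?_)
    simp only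
    congr 2
    field_simp
    ring
  rw [e, ← integral_sub h3 h1]
  refine (enorm_integral_le_lintegral_enorm _).trans (le_of_eq ?_)
  refine lintegral_congr fun z => ?_
  rw [← sub_mul, enorm_mul]

lemma gagliardo_add {v a b : ℝ → ℝ} (ha : Measurable a) (hb : Measurable b)
    (h : ∀ᵐ x, v x = a x + b x) : gagliardo v ≤ 2 * gagliardo a + 2 * gagliardo b := by
  have hmA : Measurable fun p : ℝ × ℝ => ‖a p.1 - a p.2‖ₑ ^ 2 / ‖p.1 - p.2‖ₑ ^ 2 := by fun_prop
  have hmB : Measurable fun p : ℝ × ℝ => ‖b p.1 - b p.2‖ₑ ^ 2 / ‖p.1 - p.2‖ₑ ^ 2 := by fun_prop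
  calc gagliardo v ≤ ∫⁻ x, ∫⁻ y, (2 * (‖a x - a y‖ₑ ^ 2 / ‖x - y‖ₑ ^ 2) +
        2 * (‖b x - b y‖ₑ ^ 2 / ‖x - y‖ₑ ^ 2)) := by
        refine lintegral_mono_ae ?_
        filter_upwards [h] with x hx
        refine lintegral_mono_ae ?_
        filter_upwards [h] with y hy
        rw [hx, hy, ← mul_div_assoc, ← mul_div_assoc, ← ENNReal.add_div]
        gcongr
        have e : a x + b x - (a y + b y) = (a x - a y) + (b x - b y) := by ring
        rw [e]
        calc ‖(a x - a y) + (b x - b y)‖ₑ ^ 2 ≤ (‖a x - a y‖ₑ + ‖b x - b y‖ₑ) ^ 2 := by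
              gcongr
              exact enorm_add_le _ _
          _ ≤ 2 * ‖a x - a y‖ₑ ^ 2 + 2 * ‖b x - b y‖ₑ ^ 2 := by
              have h5 := ENNReal.rpow_add_le_mul_rpow_add_rpow ‖a x - a y‖ₑ ‖b x - b y‖ₑ
                (p := 2) (by norm_num)
              norm_num at h5
              rw [← mul_add]
              exact h5
    _ = 2 * gagliardo a + 2 * gagliardo b := by
        unfold gagliardo
        rw [← lintegral_const_mul _ hmA.lintegral_prod_right', ← lintegral_const_mul _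
          hmB.lintegral_prod_right', ← lintegral_add_left
          (hmA.lintegral_prod_right'.const_mul _)]
        refine lintegral_congr fun x => ?_
        rw [lintegral_add_left (by fun_prop), lintegral_const_mul _ (by fun_prop),
          lintegral_const_mul _ (by fun_prop)]

/-! ### The function -/

/-- The half-widths `exp(-4^k)`. -/
noncomputable def rad (k : ℕ) : ℝ := Real.exp (-(4 : ℝ) ^ k)

lemma rad_pos (k : ℕ) : 0 < rad k := Real.exp_pos _

lemma exp_neg_one_lt : Real.exp (-1) < 1 / 2 := by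
  have h := Real.exp_one_gt_d9
  rw [Real.exp_neg, one_div]
  exact inv_strictAnti₀ (by norm_num) (by linarith)

lemma rad_lt (k : ℕ) : rad k < 1 / 2 := by
  refine lt_of_le_of_lt ?_ exp_neg_one_lt
  refine Real.exp_le_exp.2 ?_
  have : (1 : ℝ) ≤ 4 ^ k := one_le_pow₀ (by norm_num)
  linarith

/-- The bumps. -/
noncomputable def w (k : ℕ) : ℝ → ℝ := tent (2 ^ k) (rad k) (k + 1 / 2)

lemma w_zero {k : ℕ} {x : ℝ} (h : k ≠ ⌊x⌋₊) : w k x = 0 := by
  refine tent_zero (rad_pos k) ?_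
  by_contra hlt
  push Not at hlt
  have h1 := abs_lt.1 (hlt.trans (rad_lt k))
  apply h
  symm
  rw [Nat.floor_eq_iff (by have : (0 : ℝ) ≤ k := by positivity
                           linarith [h1.1])]
  constructor <;> linarith [h1.1, h1.2]

/-- The function `u`: on `[k, k+1)` it is the `k`-th bump. -/
noncomputable def u (x : ℝ) : ℝ := w ⌊x⌋₊ x

lemma w_measurable (k : ℕ) : Measurable (w k) := tent_measurable _ _ _

lemma u_measurable : Measurable u := by
  have h : Measurable fun p : ℕ × ℝ => w p.1 p.2 :=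
    measurable_from_prod_countable_right fun k => w_measurable k
  exact h.comp ((Nat.measurable_floor (R := ℝ)).prodMk measurable_id)

/-- The sum of the first `m` bumps. -/
noncomputable def uS (m : ℕ) (x : ℝ) : ℝ := ∑ k ∈ Finset.range m, w k x

/-- The remainder. -/
noncomputable def uT (m : ℕ) (x : ℝ) : ℝ := u x - uS m x

lemma uS_measurable (m : ℕ) : Measurable (uS m) := by
  unfold uS
  exact Finset.measurable_fun_sum _ fun k _ => w_measurable k

lemma uT_measurable (m : ℕ) : Measurable (uT m) := u_measurable.sub (uS_measurable m)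

lemma uT_eq (m : ℕ) (x : ℝ) : uT m x = if m ≤ ⌊x⌋₊ then w ⌊x⌋₊ x else 0 := by
  unfold uT uS u
  split_ifs with h
  · rw [Finset.sum_eq_zero, sub_zero]
    intro k hk
    rw [Finset.mem_range] at hk
    exact w_zero (by omega)
  · push Not at h
    rw [Finset.sum_eq_single_of_mem ⌊x⌋₊ (Finset.mem_range.2 h), sub_self]
    intro k _ hk
    exact w_zero hk

lemma uS_bound (m : ℕ) : ∃ B : ℝ, ∀ x, ‖uS m x‖ ≤ B := by
  refine ⟨∑ k ∈ Finset.range m, |(2 : ℝ) ^ k|, fun x => ?_⟩
  refine (norm_sum_le _ _).trans ?_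
  exact Finset.sum_le_sum fun k _ => tent_abs_le (rad_pos k)

lemma uS_gagliardo (m : ℕ) : gagliardo (uS m) ≤ ENNReal.ofReal (8 * Real.pi * 4 ^ m) := by
  induction m with
  | zero =>
    have : gagliardo (uS 0) = 0 := by
      unfold gagliardo uS
      simp
    rw [this]
    exact zero_le
  | succ m ih =>
    have h1 : gagliardo (uS (m + 1)) ≤ 2 * gagliardo (uS m) + 2 * gagliardo (w m) := by
      refine gagliardo_add (uS_measurable m) (w_measurable m) (Eventually.of_forall fun x => ?_)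
      unfold uS
      rw [Finset.sum_range_succ]
    refine h1.trans ?_
    have h2 : gagliardo (w m) ≤ ENNReal.ofReal (8 * Real.pi * (2 ^ m) ^ 2) :=
      tent_gagliardo (rad_pos m)
    have e : ((2 : ℝ) ^ m) ^ 2 = 4 ^ m := by
      rw [← pow_mul, mul_comm, pow_mul]; norm_num
    rw [e] at h2
    calc 2 * gagliardo (uS m) + 2 * gagliardo (w m)
        ≤ 2 * ENNReal.ofReal (8 * Real.pi * 4 ^ m) + 2 * ENNReal.ofReal (8 * Real.pi * 4 ^ m) := by
          gcongr
      _ = ENNReal.ofReal (8 * Real.pi * 4 ^ (m + 1)) := by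
          rw [← add_mul, show (2 : ℝ≥0∞) + 2 = ENNReal.ofReal 4 by norm_num,
            ← ENNReal.ofReal_mul (by norm_num)]
          congr 1
          ring

/-! ### The numerical lemma -/

lemma num_base {L y : ℝ} (hL : 1 ≤ L) (hy : L ≤ y) :
    y * Real.exp (-y) ≤ L * Real.exp (-L) := by
  have h1 : y ≤ L * Real.exp (y - L) := by
    have h2 := Real.add_one_le_exp (y - L)
    nlinarith
  calc y * Real.exp (-y) ≤ (L * Real.exp (y - L)) * Real.exp (-y) := by gcongr
    _ = L * Real.exp (-L) := by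
      rw [mul_assoc, ← Real.exp_add]
      ring_nf

lemma num_step {y : ℝ} (hy : 1 ≤ y) :
    (4 * y) * Real.exp (-(4 * y)) ≤ (1 / 2) * (y * Real.exp (-y)) := by
  have h1 : (8 : ℝ) ≤ Real.exp (3 * y) := by
    have h2 : Real.exp 3 ≤ Real.exp (3 * y) := Real.exp_le_exp.2 (by linarith)
    have h3 : Real.exp 3 = Real.exp 1 ^ 3 := by
      rw [← Real.exp_nat_mul]; norm_num
    have h4 := Real.exp_one_gt_d9
    have h5 : (2 : ℝ) ^ 3 ≤ Real.exp 1 ^ 3 := pow_le_pow_left₀ (by norm_num) (by linarith) 3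
    rw [h3] at h2
    linarith
  have e : Real.exp (-y) = Real.exp (-(4 * y)) * Real.exp (3 * y) := by
    rw [← Real.exp_add]
    ring_nf
  rw [e]
  have h6 : 0 < y * Real.exp (-(4 * y)) := by positivity
  nlinarith

lemma num_all {L : ℝ} (hL : 1 ≤ L) {m : ℕ} (hm : L ≤ 4 ^ m) (k : ℕ) :
    (4 : ℝ) ^ (m + k) * rad (m + k) ≤ (1 / 2) ^ k * (L * Real.exp (-L)) := by
  unfold rad
  induction k with
  | zero => simpa using num_base hL hm
  | succ k ih =>
    have h1 : (1 : ℝ) ≤ 4 ^ (m + k) := one_le_pow₀ (by norm_num)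
    have h2 := num_step h1
    have e : (4 : ℝ) ^ (m + (k + 1)) = 4 * 4 ^ (m + k) := by ring
    rw [e]
    refine h2.trans ?_
    rw [pow_succ]
    nlinarith

lemma uT_sq {L : ℝ} (hL : 1 ≤ L) {m : ℕ} (hm : L ≤ 4 ^ m) :
    ∫⁻ x, ‖uT m x‖ₑ ^ 2 ≤ ENNReal.ofReal (4 * L * Real.exp (-L)) := by
  have h1 : ∀ x, ‖uT m x‖ₑ ^ 2 ≤ ∑' k : ℕ, ‖w (m + k) x‖ₑ ^ 2 := by
    intro x
    rw [uT_eq]
    split_ifs with h
    · obtain ⟨k, hk⟩ := Nat.exists_eq_add_of_le h
      rw [hk]
      exact ENNReal.le_tsum k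
    · simp
  calc ∫⁻ x, ‖uT m x‖ₑ ^ 2 ≤ ∫⁻ x, ∑' k : ℕ, ‖w (m + k) x‖ₑ ^ 2 := lintegral_mono h1
    _ = ∑' k : ℕ, ∫⁻ x, ‖w (m + k) x‖ₑ ^ 2 := by
        refine lintegral_tsum fun k => ?_
        have := w_measurable (m + k)
        fun_prop
    _ ≤ ∑' k : ℕ, ENNReal.ofReal ((1 / 2) ^ k * (2 * (L * Real.exp (-L)))) := by
        refine ENNReal.tsum_le_tsum fun k => ?_
        refine (tent_sq (rad_pos (m + k))).trans (ENNReal.ofReal_le_ofReal ?_)
        have h2 := num_all hL hm k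
        have e : ((2 : ℝ) ^ (m + k)) ^ 2 = 4 ^ (m + k) := by
          rw [← pow_mul, mul_comm, pow_mul]; norm_num
        rw [e]
        nlinarith
    _ = ENNReal.ofReal (4 * L * Real.exp (-L)) := by
        rw [← ENNReal.ofReal_tsum_of_nonneg (fun k => by positivity)
          (summable_geometric_two.mul_right _), tsum_mul_right, tsum_geometric_two]
        congr 1
        ring

lemma u_eq_uT : u = uT 0 := by
  funext x
  simp [uT, uS]

lemma u_sq : ∫⁻ x, ‖u x‖ₑ ^ 2 ≠ ⊤ := by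
  rw [u_eq_uT]
  exact ne_top_of_le_ne_top ENNReal.ofReal_ne_top (uT_sq (L := 1) le_rfl (by simp))

lemma u_memLp : MemLp u 2 volume := by
  refine ⟨u_measurable.aestronglyMeasurable, ?_⟩
  rw [eLpNorm_lt_top_iff_lintegral_rpow_enorm_lt_top (by norm_num) (by norm_num)]
  have := u_sq
  simpa using lt_top_iff_ne_top.2 this

lemma besov_u : besov u = ⊤ := by
  refine ENNReal.eq_top_of_forall_nnreal_le fun r => ?_
  obtain ⟨k, hk⟩ := exists_nat_gt (8 * (r : ℝ))
  set m := k + 1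
  have hm4 : (4 : ℝ) ≤ 4 ^ m := by
    have : (4 : ℝ) ^ 1 ≤ 4 ^ m := pow_le_pow_right₀ (by norm_num) (by omega)
    simpa using this
  -- the small radius
  have hr1 : rad m < 1 / 8 := by
    unfold rad
    have h1 : Real.exp (-(4 : ℝ) ^ m) ≤ Real.exp (-4) := Real.exp_le_exp.2 (by linarith)
    have h2 : Real.exp (-4) = Real.exp (-1) ^ 4 := by rw [← Real.exp_nat_mul]; norm_num
    have h3 : Real.exp (-1) ^ 4 < (1 / 2) ^ 4 :=
      pow_lt_pow_left₀ exp_neg_one_lt (Real.exp_pos _).le (by norm_num)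
    rw [h2] at h1
    norm_num at h3 ⊢
    linarith
  have hrp := rad_pos m
  set ρ := rad m with hρ
  set c : ℝ := (m : ℝ) + 1 / 2 with hc
  have hlow : ∀ x, (Icc (c - ρ / 2) (c + ρ / 2)).indicator
      (fun _ => ENNReal.ofReal (4 ^ m / (8 * ρ))) x ≤ ‖u (x + 2 * ρ) - u x‖ₑ ^ 2 / ‖2 * ρ‖ₑ := by
    intro x
    by_cases hx : x ∈ Icc (c - ρ / 2) (c + ρ / 2)
    · rw [indicator_of_mem hx]
      have hm0 : (0 : ℝ) ≤ m := by positivity
      have hfx : ⌊x⌋₊ = m := by
        rw [Nat.floor_eq_iff (by linarith [hx.1])]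
        constructor <;> linarith [hx.1, hx.2]
      have hfy : ⌊x + 2 * ρ⌋₊ = m := by
        rw [Nat.floor_eq_iff (by linarith [hx.1])]
        constructor <;> linarith [hx.1, hx.2]
      have h1 : u (x + 2 * ρ) = 0 := by
        unfold u
        rw [hfy]
        refine tent_zero hrp ?_
        rw [abs_of_nonneg (by linarith [hx.1])]
        linarith [hx.1]
      have h2 : 2 ^ m / 2 ≤ u x := by
        unfold u
        rw [hfx]
        show 2 ^ m / 2 ≤ 2 ^ m * max 0 (1 - |x - c| / ρ)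
        have h3 : |x - c| / ρ ≤ 1 / 2 := by
          rw [div_le_iff₀ hrp, abs_le]
          constructor <;> linarith [hx.1, hx.2]
        have h4 : 1 / 2 ≤ max 0 (1 - |x - c| / ρ) := le_max_of_le_right (by linarith)
        have h5 : (0 : ℝ) < 2 ^ m := by positivity
        nlinarith
      rw [h1, zero_sub, enorm_neg, Real.enorm_eq_ofReal_abs, Real.enorm_eq_ofReal_abs,
        ← ENNReal.ofReal_pow (abs_nonneg _), sq_abs, abs_of_pos (by positivity : 0 < 2 * ρ),
        ← ENNReal.ofReal_div_of_pos (by positivity)]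
      refine ENNReal.ofReal_le_ofReal ?_
      rw [div_le_div_iff₀ (by positivity) (by positivity)]
      have h6 : (2 ^ m / 2) ^ 2 ≤ u x ^ 2 := pow_le_pow_left₀ (by positivity) h2 2
      have e : ((2 : ℝ) ^ m / 2) ^ 2 = 4 ^ m / 4 := by
        rw [div_pow, ← pow_mul, mul_comm, pow_mul]; norm_num
      rw [e] at h6
      nlinarith
    · rw [indicator_of_notMem hx]
      exact zero_le
  have hsup : ∫⁻ x, ‖u (x + 2 * ρ) - u x‖ₑ ^ 2 / ‖2 * ρ‖ₑ ≤ besov u := by
    unfold besov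
    exact le_iSup₂ (f := fun (h : ℝ) (_ : h ≠ 0) => ∫⁻ x, ‖u (x + h) - u x‖ₑ ^ 2 / ‖h‖ₑ)
      (2 * ρ) (by positivity)
  refine le_trans ?_ hsup
  refine le_trans ?_ (lintegral_mono hlow)
  rw [lintegral_indicator measurableSet_Icc, setLIntegral_const, Real.volume_Icc,
    ← ENNReal.ofReal_mul (by positivity)]
  rw [← ENNReal.ofReal_coe_nnreal]
  refine ENNReal.ofReal_le_ofReal ?_
  have e : 4 ^ m / (8 * ρ) * (c + ρ / 2 - (c - ρ / 2)) = (4 : ℝ) ^ m / 8 := by
    field_simp
    ring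
  rw [e]
  have h7 : (k : ℝ) ≤ 4 ^ m := by
    have : k < 4 ^ m := lt_of_lt_of_le (Nat.lt_pow_self (by norm_num : 1 < 4))
      (Nat.pow_le_pow_right (by norm_num) (by omega))
    exact_mod_cast this.le
  linarith

/-- The main estimate. -/
lemma main_est {η : ℝ → ℝ} (hη : MemW11 η) : ∃ C : ℝ≥0∞, C ≠ ⊤ ∧
    ∀ ε : ℝ, 0 < ε → ε ≤ Real.exp (-1) →
      gagliardo (mollify η ε u) ≤ C * ENNReal.ofReal |Real.log ε| := by
  -- measurable representative
  set η' := hη.1.aestronglyMeasurable.mk η with hη'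
  have hae : η =ᵐ[volume] η' := hη.1.aestronglyMeasurable.ae_eq_mk
  have hm : Measurable η' := hη.1.aestronglyMeasurable.stronglyMeasurable_mk.measurable
  have hi : Integrable η' := hη.1.congr hae
  have hmem : MemW11 η' := by
    obtain ⟨h1, g, hg, hw⟩ := hη
    refine ⟨hi, g, hg, fun φ h2 h3 => ?_⟩
    rw [← hw φ h2 h3]
    refine integral_congr_ae ?_
    filter_upwards [hae] with x hx
    rw [hx]
  have hmoll : ∀ ε v, mollify η ε v = mollify η' ε v := by
    intro ε v
    funext x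
    unfold mollify
    refine integral_congr_ae ?_
    filter_upwards [hae] with z hz
    rw [hz]
  obtain ⟨M, hM, hM1, hM2⟩ := transl hmem
  refine ⟨M ^ 2 * ENNReal.ofReal (80 * Real.pi), by finiteness, fun ε hε hε1 => ?_⟩
  rw [hmoll]
  set L : ℝ := -Real.log ε with hL
  have hL1 : 1 ≤ L := by
    have := Real.log_le_log hε hε1
    rw [Real.log_exp] at this
    linarith
  have hexp : Real.exp (-L) = ε := by rw [hL, neg_neg, Real.exp_log hε]
  have habs : |Real.log ε| = L := by rw [abs_of_neg (by linarith)]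
  -- choice of m
  obtain ⟨m, hm1, hm2⟩ : ∃ m : ℕ, L ≤ 4 ^ m ∧ (4 : ℝ) ^ m ≤ 4 * L := by
    have hex : ∃ m : ℕ, L ≤ (4 : ℝ) ^ m := by
      obtain ⟨m, hm⟩ := pow_unbounded_of_one_lt L (by norm_num : (1 : ℝ) < 4)
      exact ⟨m, hm.le⟩
    classical
    refine ⟨Nat.find hex, Nat.find_spec hex, ?_⟩
    rcases Nat.eq_zero_or_pos (Nat.find hex) with h0 | h0
    · rw [h0]
      simp only [pow_zero]
      linarith
    · have h1 := Nat.find_min hex (m := Nat.find hex - 1) (by omega)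
      push Not at h1
      have h2 : (4 : ℝ) ^ (Nat.find hex) = 4 * 4 ^ (Nat.find hex - 1) := by
        rw [← pow_succ']
        congr 1
        omega
      rw [h2]
      linarith
  obtain ⟨B, hB⟩ := uS_bound m
  -- head
  have hS : gagliardo (mollify η' ε (uS m)) ≤ M ^ 2 * ENNReal.ofReal (32 * Real.pi * L) := by
    rw [gagliardo_eq (mollify_measurable hm (uS_measurable m) ε)]
    calc ∫⁻ h, (∫⁻ x, ‖mollify η' ε (uS m) (x + h) - mollify η' ε (uS m) x‖ₑ ^ 2) / ‖h‖ₑ ^ 2
        ≤ ∫⁻ h, M ^ 2 * ((∫⁻ x, ‖uS m (x + h) - uS m x‖ₑ ^ 2) / ‖h‖ₑ ^ 2) := by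
          refine lintegral_mono fun h => ?_
          rw [← mul_div_assoc]
          refine ENNReal.div_le_div_right ?_ _
          refine (moll_incr_u hm hi (uS_measurable m) hB ε h).trans ?_
          gcongr
      _ = M ^ 2 * gagliardo (uS m) := by
          rw [lintegral_const_mul' _ _ (by finiteness), gagliardo_eq (uS_measurable m)]
      _ ≤ M ^ 2 * ENNReal.ofReal (32 * Real.pi * L) := by
          gcongr
          refine (uS_gagliardo m).trans (ENNReal.ofReal_le_ofReal ?_)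
          nlinarith [Real.pi_pos]
  -- tail
  have hTsq := uT_sq hL1 hm1
  have hTne : ∫⁻ x, ‖uT m x‖ₑ ^ 2 ≠ ⊤ := ne_top_of_le_ne_top ENNReal.ofReal_ne_top hTsq
  have hT : gagliardo (mollify η' ε (uT m)) ≤ M ^ 2 * ENNReal.ofReal (8 * Real.pi * L) := by
    have h1 := gagliardo_le (mollify_measurable hm (uT_measurable m) ε) hε
      (A := M ^ 2 * ∫⁻ x, ‖uT m x‖ₑ ^ 2) (fun t => by
        refine (moll_incr_eta hm hi (uT_measurable m) hTne hε t).trans ?_
        calc (∫⁻ x, ‖η' (x + t / ε) - η' x‖ₑ) ^ 2 * ∫⁻ x, ‖uT m x‖ₑ ^ 2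
            ≤ (M ^ 2 * ENNReal.ofReal (min 1 (t ^ 2 / ε ^ 2))) * ∫⁻ x, ‖uT m x‖ₑ ^ 2 := by
              gcongr
              exact hM2 t ε hε
          _ = _ := by ring)
    refine h1.trans ?_
    rw [mul_assoc]
    gcongr
    calc (∫⁻ x, ‖uT m x‖ₑ ^ 2) * ENNReal.ofReal (2 * Real.pi / ε)
        ≤ ENNReal.ofReal (4 * L * Real.exp (-L)) * ENNReal.ofReal (2 * Real.pi / ε) := by gcongr
      _ = ENNReal.ofReal (8 * Real.pi * L) := by
          rw [← ENNReal.ofReal_mul (by positivity), hexp]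
          congr 1
          field_simp
          ring
  -- sum
  have hsum : ∀ᵐ x, mollify η' ε u x = mollify η' ε (uS m) x + mollify η' ε (uT m) x := by
    have hI := moll_integrable hm hi (uT_measurable m) hTne ε
    filter_upwards [hI] with x hx
    have hIS : Integrable fun z => η' z * uS m (x - ε * z) := by
      have h1 := uS_measurable m
      have := hi.bdd_mul (c := B) (f := fun z => uS m (x - ε * z))
        (Measurable.aestronglyMeasurable (by fun_prop)) (Eventually.of_forall fun z => hB _)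
      refine this.congr (Eventually.of_forall fun z => ?_)
      simp only
      ring
    unfold mollify
    rw [← integral_add hIS hx]
    refine integral_congr_ae (Eventually.of_forall fun z => ?_)
    simp only [uT]
    ring
  have h := gagliardo_add (mollify_measurable hm (uS_measurable m) ε)
    (mollify_measurable hm (uT_measurable m) ε) hsum
  refine h.trans ?_
  calc 2 * gagliardo (mollify η' ε (uS m)) + 2 * gagliardo (mollify η' ε (uT m))
      ≤ 2 * (M ^ 2 * ENNReal.ofReal (32 * Real.pi * L)) +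
        2 * (M ^ 2 * ENNReal.ofReal (8 * Real.pi * L)) := by gcongr
    _ = M ^ 2 * (2 * (ENNReal.ofReal (32 * Real.pi * L) + ENNReal.ofReal (8 * Real.pi * L))) := by
        ring
    _ = M ^ 2 * ENNReal.ofReal (80 * Real.pi) * ENNReal.ofReal |Real.log ε| := by
        rw [habs, mul_assoc (M ^ 2), ← ENNReal.ofReal_add (by positivity) (by positivity),
          ← ENNReal.ofReal_mul (by positivity), show (2 : ℝ≥0∞) = ENNReal.ofReal 2 by norm_num,
          ← ENNReal.ofReal_mul (by norm_num)]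
        congr 2
        ring

/-- **Disproof** for `N = d = 1`, `q = 2`: there is `u ∈ L²(ℝ)` such that for every
`η ∈ W^{1,1}(ℝ)` the quantity `[u_ε]² / |ln ε|` has a finite limsup as `ε → 0⁺`, while the Besov
seminorm of `u` is infinite. -/
theorem result : ∃ u : ℝ → ℝ, MemLp u 2 volume ∧
    (∀ η : ℝ → ℝ, MemW11 η →
      limsup (fun ε : ℝ => gagliardo (mollify η ε u) / ENNReal.ofReal |Real.log ε|)
        (𝓝[>] (0 : ℝ)) < ⊤) ∧
    besov u = ⊤ := by
  refine ⟨u, u_memLp, fun η hη => ?_, besov_u⟩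
  obtain ⟨C, hC, h⟩ := main_est hη
  refine lt_of_le_of_lt ?_ (lt_top_iff_ne_top.2 hC)
  refine limsup_le_of_le (by isBoundedDefault) ?_
  have h1 : ∀ᶠ ε : ℝ in 𝓝[>] 0, ε ∈ Ioc (0 : ℝ) (Real.exp (-1)) :=
    Ioc_mem_nhdsGT (Real.exp_pos _)
  filter_upwards [h1] with ε hε
  exact ENNReal.div_le_of_le_mul (h ε hε.1 hε.2)

end Pool.Agent.Results.MP_498700_an.LogGrowth
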